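import Mathlib
import Pool.Agent.R437.Met.AF2
import Pool.Agent.R437.Met.AF3
import Pool.Agent.R437.Met.AFc
import Pool.Agent.Results.MP_f5471b_nt.AllFieldsFaltings

/-!
# The strong alternative of Lang and Silverman for products of elliptic curves whose invariants
# approximate a given number, in all fields

`Near n θ τ C ξ` is the set of all `(K, j, σ)`, where `K` is any number field of degree `n` (in the
algebraic closure of `ℚ`), `j` an element of `K` and `σ` an embedding of `K` into `Λ`, such that the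
distance of `ξ` and `σ(j)` is at most `C H(j) ^ (-τ)` and the root discriminant of `K` is at most
`H(j) ^ θ`, where `H(j)` is the absolute height.

Let `ξ` be outside a set of small Hausdorff dimension. In all number fields `K` of degree `n` at once
all but finitely many `(K, j, σ)` are such that every point `≠ 0` of `E ^ g`, `E` any elliptic curve
over `K` of invariant `j`, with any polarization, has canonical height at least `c max (h_F(E), 1)`.
For all products of powers of such curves (several invariants near `ξ`, all over the same field)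
every rational point satisfies the alternative of the problem with constants independent of the
field: some component vanishes, or the endomorphisms of `A` generate a dense subset from it and its
height is at least `(c / g) max (h_F(A), 1)`.
-/

set_option autoImplicit false

namespace Pool.Agent.Results.MP_f5471b_nt.ApproximationsAllFields

open NumberField Height MeasureTheory Filter IsDedekindDomain
open Pool.Agent.TH942 Pool.Agent.TH910.LS
open Pool.Agent.Results.MP_f5471b_nt.AllFieldsFaltings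
  (StrongLS Inv Exc faltings jInv IsPeriod)
open scoped ENNReal NNReal

open Classical in
/-- The alternative of the problem with constant `c` for all products of powers
`A = ∏ E_i ^ (g_i)` of elliptic curves `E_i : y² = x³ + a_i x + b_i` over `K` with invariants in `J`,
with the polarizations given by the positive definite matrices `M_i`: each rational point `P` of `A`
has a component `P_i = 0`, or no `P_i` is a torsion point and the canonical height of `P` is at least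
`(c / g) max (h_F(A), 1)`, `g = ∑ g_i`. -/
def Alternative (c : ℝ) (K : Type) [Field K] [NumberField K] (J : Set K) : Prop :=
  ∀ r : ℕ, 0 < r → ∀ (a b : Fin r → K) (t : Fin r → InfinitePlace K → UpperHalfPlane),
    (∀ i, 4 * a i ^ 3 + 27 * b i ^ 2 ≠ 0) → (∀ i, jInv (a i) (b i) ∈ J) →
    (∀ i, IsPeriod (jInv (a i) (b i)) (t i)) → ∀ g : Fin r → ℕ, (∀ i, 1 ≤ g i) →
    ∀ (M : ∀ i, Matrix (Fin (g i)) (Fin (g i)) ℤ),
    (∀ i, ((M i).map (Int.cast : ℤ → ℝ)).PosDef) →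
    ∀ P : ∀ i, Fin (g i) → SPt (a i) (b i),
      (∃ i, P i = 0) ∨ ((∀ i, ∃ k, ¬ IsOfFinAddOrder (P i k)) ∧
        c / (∑ i, g i : ℕ) * max (∑ i, g i * faltings (a i) (b i) (t i)) 1 ≤
          (∑ i, chatM (M i) (P i)) / Module.finrank ℚ K)

section Aux

open Pool.Agent.R437.Met.AF

/-- the invariants in `K` for which the strong lower bound with constant `c` fails -/
def Bad (c : ℝ) (K : NF) : Set K.1 := {j | j ≠ 0 ∧ j ≠ 1728 ∧ ¬ StrongLS c j}

theorem mono {K : Type} [Field K] [NumberField K] {c c' : ℝ} (h : c ≤ c') {j : K}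
    (hj : StrongLS c' j) : StrongLS c j := by
  classical
  intro a b τ hD hab hτ g M hM P hP
  have h1 := hj a b τ hD hab hτ g M hM P hP
  exact le_trans (mul_le_mul_of_nonneg_right h (le_max_of_le_right zero_le_one)) h1

theorem alternative (c : ℝ) (hc : 0 < c) (K : Type) [Field K] [NumberField K] (J : Set K)
    (hJ : ∀ j ∈ J, StrongLS c j) : Alternative c K J := by
  classical
  obtain ⟨-, -, halt, -⟩ := AllFieldsFaltings.result
  intro r hr a b t hD hj ht g hg M hM P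
  exact halt K c hc r hr a b t hD (fun i => hJ _ (hj i)) ht g hg M hM P

/-- the common constant of the starting count -/
def Cst (c₀ : ℝ) : Prop :=
  ∀ η ε : ℝ, 0 < η → η < 1 / 2 → 0 < ε → ∃ C : ℝ, 0 < C ∧
    ∀ (K : Type) [Field K] [NumberField K] (B : ℝ), 1 ≤ B →
      (Inv K B).Finite ∧ ((Exc K (c₀ * (1 - 2 * η)) B).ncard : ℝ) ≤
        (C * B ^ (2 - η / 2 + ε)) ^ Module.finrank ℚ K

theorem bad_count {c₀ : ℝ} (hc₀ : Cst c₀) {n : ℕ} (hn : 1 ≤ n) {η : ℝ} (h0 : 0 < η)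
    (h1 : η < 1 / 2) (ε : ℝ) (hε : 0 < ε) :
    ∃ C : ℝ, ∀ K : NF, Module.finrank ℚ K.1 = n → ∀ B : ℝ, 1 ≤ B →
      {j : K.1 | j ∈ Bad (c₀ * (1 - 2 * η)) K ∧ logHeight₁ j ≤ n * Real.log B}.Finite ∧
      (({j : K.1 | j ∈ Bad (c₀ * (1 - 2 * η)) K ∧ logHeight₁ j ≤ n * Real.log B}.ncard : ℕ) : ℝ) ≤
        C * B ^ (n * (2 - η / 2) + ε) := by
  have hn0 : (0 : ℝ) < n := by exact_mod_cast hn
  obtain ⟨C, hC, h⟩ := hc₀ η (ε / n) h0 h1 (by positivity)
  refine ⟨C ^ n, fun K hK B hB => ?_⟩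
  have hB0 : 0 < B := by linarith
  obtain ⟨h2, h3⟩ := h K.1 B hB
  have hset : {j : K.1 | j ∈ Bad (c₀ * (1 - 2 * η)) K ∧ logHeight₁ j ≤ n * Real.log B} =
      Exc K.1 (c₀ * (1 - 2 * η)) B := by
    ext j
    simp only [Set.mem_ofPred_eq, Bad, Exc, AllFieldsFaltings.Inv, hK]
    tauto
  rw [hset]
  refine ⟨h2.subset fun j hj => hj.1, h3.trans (le_of_eq ?_)⟩
  rw [hK, mul_pow, ← Real.rpow_natCast (B ^ _), ← Real.rpow_mul hB0.le]
  congr 2
  field_simp

theorem main :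
    (∃ (c₀ : ℝ) (e : ℕ → ℝ), 0 < c₀ ∧
      (∀ c : ℝ, 1 / (8 * (Real.log 2) ^ 2) < c →
        ∀ᶠ n : ℕ in atTop, e n ≤ c * (Real.log n) ^ 2) ∧
      (∀ n, 0 ≤ e n) ∧
      (∀ n : ℕ, 2 ≤ n →
        e n ≤ (((n + 2) * (n - 1) : ℕ) : ℝ) / (4 * ((n - n / n.minFac : ℕ) : ℝ))) ∧
      e 1 = 0 ∧
      (∀ (Λ : Type) [Field Λ] [CharZero Λ] [MetricSpace Λ] (n : ℕ) (η θ τ : ℝ), 1 ≤ n → 0 < η →
        η < 1 / 2 → 0 ≤ θ → 0 < τ →
          dimH {ξ : Λ | ∃ C : ℝ, {p | p ∈ Near n θ τ C ξ ∧ p.2.1 ≠ 0 ∧ p.2.1 ≠ 1728 ∧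
            ¬ StrongLS (c₀ * (1 - 2 * η)) p.2.1}.Infinite} ≤
              ENNReal.ofReal (n * (2 - η / 2 + θ * e n) / τ)) ∧
      (∀ᵐ ξ : ℝ, ∀ (n : ℕ) (η θ τ C : ℝ), 1 ≤ n → 0 < η → η < 1 / 2 → 0 ≤ θ →
        n * (2 - η / 2 + θ * e n) < τ → ∃ F : Set (Pt ℝ), F.Finite ∧
          (∀ p ∈ Near n θ τ C ξ, p.2.1 ≠ 0 → p.2.1 ≠ 1728 → p ∉ F →
            StrongLS (c₀ * (1 - 2 * η)) p.2.1) ∧
          ∀ K : NF, Alternative (c₀ * (1 - 2 * η)) K.1 {j | j ≠ 0 ∧ j ≠ 1728 ∧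
            ∃ σ : K.1 →+* ℝ, (⟨K, j, σ⟩ : Pt ℝ) ∈ Near n θ τ C ξ ∧ (⟨K, j, σ⟩ : Pt ℝ) ∉ F})) ∧
    (∀ (K : NF) (σ : K.1 →+* ℝ) (θ τ : ℝ), 0 < θ → τ < 2 * (Module.finrank ℚ K.1 : ℝ) →
      ∀ ξ : ℝ, ξ ∉ Set.range σ →
        {j : K.1 | j ≠ 0 ∧ j ≠ 1728 ∧
          (⟨K, j, σ⟩ : Pt ℝ) ∈ Near (Module.finrank ℚ K.1) θ τ 1 ξ}.Infinite) := by
  obtain ⟨e, h1, h2, h3, h4, h5⟩ := field_count
  obtain ⟨⟨c₀, hc, hcount, -⟩, -⟩ := AllFieldsFaltings.result
  have hcst : Cst c₀ := by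
    intro η ε h0 h1 hε
    obtain ⟨C, hC, h⟩ := hcount η ε h0 h1 hε
    exact ⟨C, hC, fun K _ _ B hB => ⟨(h K B hB).1, (h K B hB).2.1⟩⟩
  have hdim : ∀ (Λ : Type) [Field Λ] [CharZero Λ] [MetricSpace Λ] (n : ℕ) (η θ τ : ℝ), 1 ≤ n →
      0 < η → η < 1 / 2 → 0 ≤ θ → 0 < τ →
        dimH {ξ : Λ | ∃ C : ℝ, {p | p ∈ Near n θ τ C ξ ∧ p.2.1 ≠ 0 ∧ p.2.1 ≠ 1728 ∧
            ¬ StrongLS (c₀ * (1 - 2 * η)) p.2.1}.Infinite} ≤
              ENNReal.ofReal (n * (2 - η / 2 + θ * e n) / τ) := by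
    intro Λ _ _ _ n η θ τ hn hη0 hη1 hθ hτ
    refine (dim (Λ := Λ) (Bad (c₀ * (1 - 2 * η))) hn (a := n * (2 - η / 2)) (s := e n)
      (mul_nonneg (Nat.cast_nonneg _) (by linarith)) (h2 n) hθ hτ (h5 n hn)
      (fun ε hε => bad_count hcst hn hη0 hη1 ε hε)).trans (le_of_eq ?_)
    congr 2
    ring
  refine ⟨⟨c₀, e, hc, h1, h2, h3, h4, hdim, ?_⟩, ?_⟩
  · rw [ae_all_iff]
    intro n
    have key := ae_params (volume : Measure ℝ) (fun η θ τ ξ => ∀ C : ℝ,
        {p | p ∈ Near n θ τ C ξ ∧ p.2.1 ≠ 0 ∧ p.2.1 ≠ 1728 ∧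
            ¬ StrongLS (c₀ * (1 - 2 * η)) p.2.1}.Finite)
      (by
        intro η η' θ θ' τ τ' ξ hη hθ hτ h C
        refine (h |C|).subset ?_
        rintro p ⟨hp1, hp2, hp3, hp4⟩
        exact ⟨near_mono hθ hτ (le_abs_self C) (abs_nonneg C) ξ hp1, hp2, hp3,
          fun h6 => hp4 (mono (mul_le_mul_of_nonneg_left (by linarith) hc.le) h6)⟩)
      (fun η θ τ => 1 ≤ n ∧ 0 < η ∧ η < 1 / 2 ∧ 0 ≤ θ ∧ n * (2 - η / 2 + θ * e n) < τ)
      (by
        rintro η θ τ ⟨hn, hη0, hη1, hθ, hg⟩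
        obtain ⟨η', θ', τ', a1, a2, a3, a4, a5⟩ := open_rat (fun x => 2 - x / 2) (n := n)
          (e := e n) (lo := 0) (η := η) (θ := θ) (τ := τ) (Nat.cast_nonneg _) (h2 n) hη0
          (by fun_prop) hg
        exact ⟨η', θ', τ', a2, a3, a4, hn, a1, by linarith, by linarith, a5⟩)
      (by
        rintro η θ τ ⟨hn, hη0, hη1, hθ, hg⟩
        have hn0 : (1 : ℝ) ≤ n := by exact_mod_cast hn
        have hpos : 0 < (n : ℝ) * (2 - η / 2 + θ * e n) := by
          have := mul_nonneg hθ (h2 n)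
          exact mul_pos (by linarith) (by linarith)
        have hτ : 0 < τ := by linarith
        have h7 : volume {ξ : ℝ | ∃ C : ℝ, {p | p ∈ Near n θ τ C ξ ∧ p.2.1 ≠ 0 ∧ p.2.1 ≠ 1728 ∧
            ¬ StrongLS (c₀ * (1 - 2 * η)) p.2.1}.Infinite} = 0 := by
          refine null_real (lt_of_le_of_lt (hdim ℝ n η θ τ hn hη0 hη1 hθ hτ) ?_)
          rw [← ENNReal.ofReal_one, ENNReal.ofReal_lt_ofReal_iff one_pos, div_lt_one hτ]
          exact hg
        rw [ae_iff]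
        refine measure_mono_null ?_ h7
        intro ξ hξ
        simp only [Set.mem_ofPred_eq, not_forall] at hξ ⊢
        exact hξ)
    filter_upwards [key] with ξ hξ
    intro η θ τ C hn hη0 hη1 hθ hg
    have hfin := hξ η θ τ ⟨hn, hη0, hη1, hθ, hg⟩ C
    have hall : ∀ p ∈ Near n θ τ C ξ, p.2.1 ≠ 0 → p.2.1 ≠ 1728 →
        p ∉ {p | p ∈ Near n θ τ C ξ ∧ p.2.1 ≠ 0 ∧ p.2.1 ≠ 1728 ∧
            ¬ StrongLS (c₀ * (1 - 2 * η)) p.2.1} → StrongLS (c₀ * (1 - 2 * η)) p.2.1 := by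
      intro p hp hp0 hp1 hpF
      by_contra hcon
      exact hpF ⟨hp, hp0, hp1, hcon⟩
    refine ⟨_, hfin, hall, ?_⟩
    intro K
    have hcpos : 0 < c₀ * (1 - 2 * η) := mul_pos hc (by linarith)
    refine alternative _ hcpos K.1 _ ?_
    rintro j ⟨hi0, hi1, σ, hi2, hi3⟩
    exact hall ⟨K, j, σ⟩ hi2 hi0 hi1 hi3
  · intro K σ θ τ hθ hτ ξ hξ
    have h6 := infinite_near K σ hθ hτ hξ (E := {0, 1728}) (by simp)
    refine h6.mono ?_
    rintro j ⟨hj1, hj2⟩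
    refine ⟨fun h => hj1 (by simp [h]), fun h => hj1 (by simp [h]), hj2⟩

end Aux

open Pool.Agent.R437.Met.AFc

/-- the points in `Near n θ τ C ξ` where the strong lower bound with constant `c` fails -/
def Fail {Λ : Type} [Field Λ] [MetricSpace Λ] (c : ℝ) (n : ℕ) (θ τ C : ℝ) (ξ : Λ) : Set (Pt Λ) :=
  {p | p ∈ Near n θ τ C ξ ∧ p.x ≠ 0 ∧ p.x ≠ 1728 ∧ ¬ StrongLS c p.x}

/-- the elements `j ≠ 0, 1728` of `K` for which some `(K, j, σ)` is in the set `S` -/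
def InvIn (S : Set (Pt ℝ)) (K : NF) : Set K.F :=
  {j | j ≠ 0 ∧ j ≠ 1728 ∧ ∃ σ : K.F →+* ℝ, (⟨K, j, σ⟩ : Pt ℝ) ∈ S}

/-- the alternative of the problem with constant `c` holds, in all fields, for the invariants in
`Near n θ τ C ξ` outside a finite set -/
def AltNear (c : ℝ) (n : ℕ) (θ τ C ξ : ℝ) : Prop :=
  ∃ F : Set (Pt ℝ), F.Finite ∧ ∀ K : NF, Alternative c K.F (InvIn (Near n θ τ C ξ \ F) K)

/-- **Theorem.** There are an absolute constant `c₀ > 0` and `e : ℕ → ℝ` with `e 1 = 0`,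
`0 ≤ e n ≤ (n + 2) (n - 1) / (4 (n - n / p))`, `p` the least prime factor of `n ≥ 2`, and
`e n = O(log ^ 2 n)`, such that the following holds for `0 < η < 1 / 2`, `θ ≥ 0`, `c = c₀ (1 - 2 η)`.
(1) For every field `Λ` of characteristic zero with a metric (`ℝ`, `ℂ`, `ℚ_p`), all `n ≥ 1`, `τ > 0`
and all `ξ` in `Λ` outside a set of Hausdorff dimension at most `n (2 - η / 2 + θ e(n)) / τ`: for
every `C`, for all but finitely many `(K, j, σ)` in `Near n θ τ C ξ` with `j ≠ 0, 1728` the strong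
lower bound with the constant `c` holds for all elliptic curves over `K` of invariant `j`.
(2) For almost every real `ξ` this is true for all `n ≥ 1`, `η`, `θ`, `τ`, `C` with
`n (2 - η / 2 + θ e(n)) < τ`. Moreover (alternative of the problem), for these parameters, outside a
finite subset `F` of `Near n θ τ C ξ` which depends on `ξ` and on the parameters: for every number
field `K` and for all products of powers of elliptic curves over `K` with invariants `j ≠ 0, 1728`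
such that some `(K, j, σ)` belongs to `Near n θ τ C ξ` but not to `F`, the alternative holds.
(3) For every number field `K` of degree `n`, every embedding `σ` of `K` into the real numbers, all
`θ > 0`, `τ < 2 n` and every real `ξ` not in `σ(K)` there are infinitely many `j ≠ 0, 1728` in `K`
with `(K, j, σ)` in `Near n θ τ 1 ξ`. -/
theorem result :
    (∃ (c₀ : ℝ) (e : ℕ → ℝ), 0 < c₀ ∧ Expo e ∧
      (∀ (Λ : Type) [Field Λ] [CharZero Λ] [MetricSpace Λ] (n : ℕ) (η θ τ : ℝ), 1 ≤ n → 0 < η →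
        η < 1 / 2 → 0 ≤ θ → 0 < τ →
          dimH {ξ : Λ | ∃ C : ℝ, (Fail (c₀ * (1 - 2 * η)) n θ τ C ξ).Infinite} ≤
            ENNReal.ofReal (n * (2 - η / 2 + θ * e n) / τ)) ∧
      (∀ᵐ ξ : ℝ, ∀ (n : ℕ) (η θ τ C : ℝ), 1 ≤ n → 0 < η → η < 1 / 2 → 0 ≤ θ →
        n * (2 - η / 2 + θ * e n) < τ → (Fail (c₀ * (1 - 2 * η)) n θ τ C ξ).Finite ∧
          AltNear (c₀ * (1 - 2 * η)) n θ τ C ξ)) ∧
    (∀ (K : NF) (σ : K.F →+* ℝ) (θ τ : ℝ), 0 < θ → τ < 2 * (K.deg : ℝ) →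
      ∀ ξ : ℝ, ξ ∉ Set.range σ → {x | x ≠ 0 ∧ x ≠ 1728 ∧ x ∈ NearIn K σ θ τ ξ}.Infinite) := by
  obtain ⟨⟨c₀, e, h0, h1, h2, h3, h4, h5, h6⟩, h7⟩ := main
  refine ⟨⟨c₀, e, h0, ⟨h1, h2, h3, h4⟩, h5, ?_⟩, h7⟩
  filter_upwards [h6] with ξ hξ
  intro n η θ τ C hn hη0 hη1 hθ hg
  obtain ⟨F, hF, hF1, hF2⟩ := hξ n η θ τ C hn hη0 hη1 hθ hg
  refine ⟨hF.subset ?_, F, hF, hF2⟩
  rintro p ⟨hp1, hp2, hp3, hp4⟩
  by_contra hpF
  exact hp4 (hF1 p hp1 hp2 hp3 hpF)

end Pool.Agent.Results.MP_f5471b_nt.ApproximationsAllFields
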