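import Pool.Agent.Results.MP_f5471b_nt.AllFieldsFaltings
import Pool.Agent.R559.NP.Rel

/-!
# The strong inequality of Lang and Silverman with the relative Faltings height for all elliptic curves with invariant near
# a given point

Let `φ` be any map from the algebraic numbers to a metric space `X`, for example the inclusion in `ℂ` or in `ℂ_p`,
`0 < η < 1 / 2` and `τ > 0`.  For all `ξ ∈ X` outside a set of Hausdorff dimension at most `(2 - η / 2) / τ` and for ALL
number fields `K` the following holds for all but finitely many `j ∈ K` with `dist (φ j) ξ ≤ κ H_K(j) ^ (-τ)`: for ALL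
elliptic curves `E` over `K` of invariant `j` (all twists), all `g`, all polarizations and all points `P ≠ 0` of `E ^ g` over
`K` the absolute canonical height of `P` is at least `c₀ (1 - 2 η) max (h_F(E / K), 1)`, where `h_F` is the relative Faltings
height and `c₀ > 0` is an absolute constant.
-/

set_option autoImplicit false

namespace Pool.Agent.Results.MP_f5471b_nt.InvariantsNearAPoint

open NumberField
open AllFieldsFaltings (StrongLS)

/-- **Theorem.** There is an absolute constant `c₀ > 0` with the following property.  Let `φ` be a map from the algebraic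
numbers to a metric space `X`, `0 < η < 1 / 2` and `τ > 0`.  There is `E ⊆ X` of Hausdorff dimension at most
`(2 - η / 2) / τ` such that for all `ξ ∈ X` outside `E`, all number fields `K` inside the algebraic numbers and all `κ` all
but finitely many `j ∈ K` with `dist (φ j) ξ ≤ κ H_K(j) ^ (-τ)`, `H_K` the height relative to `K`, satisfy
`StrongLS (c₀ (1 - 2 η)) j`: the strong lower bound with constant `c₀ (1 - 2 η)` for all powers, with all polarizations, of
all elliptic curves over `K` of invariant `j`. -/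
theorem result : ∃ c₀ : ℝ, 0 < c₀ ∧ ∀ (X : Type) [MetricSpace X] (φ : AlgebraicClosure ℚ → X) (η τ : ℝ),
    0 < η → η < 1 / 2 → 0 < τ →
    ∃ E : Set X, dimH E ≤ ENNReal.ofReal ((2 - η / 2) / τ) ∧ ∀ ξ : X, ξ ∉ E →
      ∀ (K : IntermediateField ℚ (AlgebraicClosure ℚ)) [NumberField K] (κ : ℝ),
        {j : K | dist (φ j) ξ ≤ κ * Height.mulHeight₁ j ^ (-τ) ∧ ¬ StrongLS (c₀ * (1 - 2 * η)) j}.Finite := by
  obtain ⟨c₀, hc₀, hres, -⟩ := AllFieldsFaltings.result.1
  refine ⟨c₀, hc₀, fun X _ φ η τ hη hη' hτ => ?_⟩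
  obtain ⟨E, hE, hE'⟩ := Pool.Agent.R559.NP.near_fields (X := X)
    (fun K _ j => (j ≠ 0 ∧ j ≠ 1728) ∧ ¬ StrongLS (K := K) (c₀ * (1 - 2 * η)) j) (s := 2 - η / 2) (τ := τ)
    (by linarith) hτ
    (by
      intro K _ ε hε
      obtain ⟨C, hC, h⟩ := hres η ε hη hη' hε
      refine ⟨C, hC, fun B hB => ?_⟩
      obtain ⟨h1, h2, -⟩ := h K B hB
      have hset : {j : K | ((j ≠ 0 ∧ j ≠ 1728) ∧ ¬ StrongLS (c₀ * (1 - 2 * η)) j) ∧
          Height.logHeight₁ j ≤ Module.finrank ℚ K * Real.log B} =
          AllFieldsFaltings.Exc K (c₀ * (1 - 2 * η)) B := by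
        ext j
        simp only [AllFieldsFaltings.Exc, AllFieldsFaltings.Inv, Set.mem_ofPred_eq]
        tauto
      rw [hset]
      exact ⟨h1.subset fun j hj => hj.1, h2⟩) φ
  refine ⟨E, hE, fun ξ hξ K _ κ => ?_⟩
  refine ((hE' ξ hξ K κ).union ((Set.finite_singleton (0 : K)).union (Set.finite_singleton (1728 : K)))).subset ?_
  rintro j ⟨h1, h2⟩
  by_cases h3 : j = 0
  · exact Or.inr (Or.inl h3)
  by_cases h4 : j = 1728
  · exact Or.inr (Or.inr h4)
  · exact Or.inl ⟨h1, ⟨h3, h4⟩, h2⟩

end Pool.Agent.Results.MP_f5471b_nt.InvariantsNearAPoint
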