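import Mathlib
import Pool.Agent.R407.NI2

/-!
# The strong Lang-Silverman alternative for products of Weil restrictions of elliptic curves with
# nearly `S`-integral invariants

The problem asks for constants `c₁`, `c₂`, depending on the number field `K` and on `dim A`, such
that every `P ∈ A(K)` has order at most `c₂` modulo a proper abelian subvariety of degree at most
`c₂ deg A`, or has canonical height at least `c₁ max (h_F(A/K), 1)`, with `h_F` the RELATIVE
Faltings height.

We prove this for ALL products `A = ∏ Res_{L_i/K} (E_i ^ (r_i))`, where the `L_i` are extensions of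
`K` of degree at most `D` over `ℚ` and `E_i : y² = x³ + a_i x + b_i` are elliptic curves over `L_i`
(any twists) whose modular invariants `j_i` generate `L_i` over `K`, are integral outside the
primes dividing `M` up to the small proportion `δ`, and have height larger than a bound depending on
`D` and `M` only. The constants depend on `D` only (and `c₁` is `c / dim A`), not on `M`. Over the
algebraic closure `Res_{L/K} E` is the product of the `[L : K]` distinct conjugates of `E`.

The group of rational points over `K` of `Res_{L/K} (E ^ r)` is `E(L) ^ r`; a positive definite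
integral matrix `X` gives a polarization; `chatM X P` is the canonical height relative to `L`, and
the canonical height of `Res_{L/K} (E ^ r)` is `chatM X P / [K : ℚ]`. The relative Faltings height
satisfies `12 [K : ℚ] h_F(A/K) = r (12 [L : ℚ] h_F(E/L) + 6 log (|D_L| / |D_K| ^ [L : K]))`; the last
term is bounded by `12 r ([L : K] - 1) (h(j) + n)`, `n = [L : ℚ]` (after Silverman).
-/

set_option autoImplicit false
set_option linter.unusedSectionVars false

namespace Pool.Agent.Results.MP_f5471b_nt.ResNearlyIntegralJ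

open NumberField IsDedekindDomain Pool.Agent.TH942 Pool.Agent.TH910.LS

/-- the modular invariant `j(τ) = E₄(τ) ^ 3 / Δ(τ) = 1 / q + 744 + ⋯` -/
noncomputable def jFun (τ : UpperHalfPlane) : ℂ :=
  ModularForm.E₄ τ ^ 3 / ModularForm.discriminant τ

/-- the archimedean term `- log (|Δ(τ)| (Im τ) ^ 6)` of the Faltings height -/
noncomputable def arch (τ : UpperHalfPlane) : ℝ :=
  -Real.log (‖ModularForm.discriminant τ‖ * τ.im ^ 6)

section Defs

variable {L : Type} [Field L] [NumberField L]

/-- the points `τ w` have modular invariant `j` -/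
def IsPeriod (j : L) (τ : InfinitePlace L → UpperHalfPlane) : Prop :=
  ∀ w, jFun (τ w) = w.embedding j

/-- the equation is integral at `v` -/
def IntAt (v : HeightOneSpectrum (𝓞 L)) (E : WeierstrassCurve L) : Prop :=
  v.valuation L E.a₁ ≤ 1 ∧ v.valuation L E.a₂ ≤ 1 ∧ v.valuation L E.a₃ ≤ 1 ∧
    v.valuation L E.a₄ ≤ 1 ∧ v.valuation L E.a₆ ≤ 1

/-- the exponent of `v` in the minimal discriminant of the curve: the least valuation at `v` of the
discriminant of a Weierstrass equation of the curve over `L` which is integral at `v` -/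
noncomputable def discExp (v : HeightOneSpectrum (𝓞 L)) (E : WeierstrassCurve L) : ℕ :=
  sInf {m : ℕ | ∃ C : WeierstrassCurve.VariableChange L, IntAt v (C • E) ∧
    v.valuation L (C • E).Δ = WithZero.exp (-(m : ℤ))}

/-- the relative (not stabilised) Faltings height over `K` of the Weil restriction
`A = Res_{L/K} (E ^ r)`, where `E` is the curve `y² = x³ + a x + b` over `L`: `12 [K : ℚ] h_F(A/K)`
is `r` times the sum of the logarithm of the norm of the minimal discriminant of `E`, of the
archimedean terms and of `6 log (|D_L| / |D_K| ^ [L : K])` -/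
noncomputable def faltings (K : Type) [Field K] [NumberField K] [Algebra K L] (a b : L)
    (τ : InfinitePlace L → UpperHalfPlane) (r : ℕ) : ℝ :=
  r * (∑ᶠ v : HeightOneSpectrum (𝓞 L),
      (discExp v (⟨0, 0, 0, a, b⟩ : WeierstrassCurve L) : ℝ) *
        Real.log (Ideal.absNorm v.asIdeal : ℝ) +
    ∑ w : InfinitePlace L, (w.mult : ℝ) * arch (τ w) +
    6 * (Real.log |(discr L : ℝ)| - Module.finrank K L * Real.log |(discr K : ℝ)|)) /
      (12 * Module.finrank ℚ K)

/-- the `j`-invariant of `y² = x³ + a x + b` -/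
noncomputable def jInv (a b : L) : L := 6912 * a ^ 3 / (4 * a ^ 3 + 27 * b ^ 2)

/-- the absolute logarithmic Weil height -/
noncomputable def absH (x : L) : ℝ := Height.logHeight₁ x / Module.finrank ℚ L

/-- `j` is integral outside `M` up to the proportion `δ`: for some positive integer `b` with
`log b ≤ δ h(j)` and some `k`, the number `b M ^ k j` is an algebraic integer. If `b = 1` then `j`
is integral outside the primes dividing `M`. -/
def NearlyIntegral (δ : ℝ) (M : ℕ) (j : L) : Prop :=
  ∃ b k : ℕ, 0 < b ∧ Real.log b ≤ δ * absH j ∧ IsIntegral ℤ ((b : L) * (M : L) ^ k * j)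

end Defs

theorem n_pos (K : Type) [Field K] [NumberField K] : (0 : ℝ) < Module.finrank ℚ K := by
  exact_mod_cast Module.finrank_pos

/-- the relation of the definitions -/
theorem faltings_eq (K : Type) [Field K] [NumberField K] {L : Type} [Field L] [NumberField L]
    [Algebra K L] (a b : L) (τ : InfinitePlace L → UpperHalfPlane) (r : ℕ) :
    12 * (Module.finrank ℚ K : ℝ) * faltings K a b τ r =
      r * (Pool.Agent.Y733.FF.discSum (sw a b) +
      ∑ w : InfinitePlace L, (w.mult : ℝ) * Pool.Agent.TH876.FH.arch (τ w) +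
      6 * (Real.log |(discr L : ℝ)| - Module.finrank K L * Real.log |(discr K : ℝ)|)) := by
  have h0 : (12 * (Module.finrank ℚ K : ℝ)) ≠ 0 := by
    have := n_pos K
    positivity
  unfold faltings
  rw [mul_div_cancel₀ _ h0]
  rfl

open Classical in
/-- one Weil restriction -/
theorem one (D : ℕ) : ∃ (N : ℕ) (c δ : ℝ), 0 < c ∧ 0 < δ ∧ ∀ M : ℕ, M ≠ 0 → ∃ A : ℝ,
    ∀ (L : Type) [Field L] [NumberField L], Module.finrank ℚ L ≤ D →
    ∀ (K : Type) [Field K] [NumberField K] [Algebra K L] (a b : L)
      (τ : InfinitePlace L → UpperHalfPlane), 4 * a ^ 3 + 27 * b ^ 2 ≠ 0 →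
    IntermediateField.adjoin K {jInv a b} = ⊤ → IsPeriod (jInv a b) τ →
    NearlyIntegral δ M (jInv a b) → A < absH (jInv a b) →
    ∀ (r : ℕ) (X : Matrix (Fin r) (Fin r) ℤ), (X.map (Int.cast : ℤ → ℝ)).PosDef →
    ∀ P : Fin r → SPt a b, (0 < addOrderOf P ∧ addOrderOf P ≤ N) ∨ (¬ IsOfFinAddOrder P ∧
      c / ((r * Module.finrank K L : ℕ) : ℝ) * max (faltings K a b τ r) 1 ≤
        chatM X P / Module.finrank ℚ K) := by
  obtain ⟨N, c, δ, hc, hδ, h⟩ := Pool.Agent.R407.ni_core D
  refine ⟨N, c, δ, hc, hδ, fun M hM => ?_⟩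
  obtain ⟨A, h⟩ := h M hM
  refine ⟨A, ?_⟩
  intro L _ _ hLD K _ _ _ a b τ hD hK hτ hj hAj r X hX P
  rcases h L hLD K a b τ hD hK hτ hj hAj r X hX P with h | ⟨htor, h1, h2⟩
  · exact Or.inl h
  refine Or.inr ⟨htor, ?_⟩
  have hfd : FiniteDimensional K L := Module.Finite.of_restrictScalars_finite ℚ K L
  have hn := n_pos K
  have hG1 : (1 : ℝ) ≤ Module.finrank K L := by
    exact_mod_cast (Module.finrank_pos : 0 < Module.finrank K L)
  have hr1 : 1 ≤ r := by
    rcases Nat.eq_zero_or_pos r with rfl | h0
    · exfalso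
      apply htor
      rw [Subsingleton.elim P 0]
      exact IsOfFinAddOrder.zero
    · exact h0
  have hr : (1 : ℝ) ≤ r := by exact_mod_cast hr1
  have hmul : (Module.finrank ℚ L : ℝ) = Module.finrank ℚ K * Module.finrank K L := by
    rw [← Module.finrank_mul_finrank ℚ K L]
    push_cast
    rfl
  have hf := faltings_eq K a b τ r
  push_cast
  set G : ℝ := (Module.finrank K L : ℝ) with hG
  set d : ℝ := (Module.finrank ℚ K : ℝ) with hd
  set Y : ℝ := Pool.Agent.Y733.FF.discSum (sw a b) +
      ∑ w : InfinitePlace L, (w.mult : ℝ) * Pool.Agent.TH876.FH.arch (τ w) +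
      6 * (Real.log |(discr L : ℝ)| - G * Real.log |(discr K : ℝ)|) with hY
  have hG0 : 0 < G := by linarith
  have hr0 : (0 : ℝ) < r := by linarith
  rw [le_div_iff₀ hn]
  have h3 : 0 ≤ chatM X P := le_trans (mul_nonneg hc.le (by positivity)) h2
  rcases le_total (faltings K a b τ r) 1 with h4 | h4
  · rw [max_eq_right h4, mul_one]
    have h5 : c / (r * G) * d ≤ c * d := by
      apply mul_le_mul_of_nonneg_right _ hn.le
      exact div_le_self hc.le (by nlinarith)
    have h6 : c * d ≤ c * Module.finrank ℚ L := by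
      apply mul_le_mul_of_nonneg_left _ hc.le
      rw [hmul]
      exact le_mul_of_one_le_right hn.le hG1
    linarith
  · rw [max_eq_left h4]
    have h5 : c / (r * G) * faltings K a b τ r * d = c * Y / (12 * G) := by
      have h6 : faltings K a b τ r * d = r * Y / 12 := by
        rw [eq_div_iff (by norm_num)]
        linarith
      rw [mul_assoc, h6]
      field_simp
    rw [h5, div_le_iff₀ (by positivity)]
    have h7 : 0 ≤ chatM X P * G := mul_nonneg h3 hG0.le
    nlinarith

open Classical in
/-- For every `D` there are `N`, `c > 0` and `δ > 0` such that for every integer `M ≠ 0` there is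
`A` such that the following holds for every number field `K`, all extensions `L_i` of `K` of degree
at most `D` over `ℚ` and all elliptic curves `E_i : y² = x³ + a_i x + b_i` over `L_i` whose
`j`-invariants generate `L_i` over `K`, are integral outside `M` up to the proportion `δ` and have
height larger than `A`: `chat` is the limit of `sht (2 ^ k Q) / 4 ^ k`, and for all `r_i`, all
polarizations `X_i` and all `P ∈ ∏ E_i(L_i) ^ (r_i)`,
the group of the rational points over `K` of `A = ∏ Res_{L_i/K} (E_i ^ (r_i))`,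
some `P_i` is a torsion point of order at most `N` (so that `P` has order at most `N` modulo the
product of the other factors), or no `P_i` is a torsion point and the canonical height of `P` is at
least `(c / dim A) max (h_F(A/K), 1)`. -/
theorem result (D : ℕ) : ∃ (N : ℕ) (c δ : ℝ), 0 < c ∧ 0 < δ ∧ ∀ M : ℕ, M ≠ 0 → ∃ A : ℝ,
    ∀ (K : Type) [Field K] [NumberField K] (s : ℕ), 0 < s → ∀ (L : Fin s → Type)
      [∀ i, Field (L i)] [∀ i, NumberField (L i)] [∀ i, Algebra K (L i)],
    (∀ i, Module.finrank ℚ (L i) ≤ D) →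
    ∀ (a b : ∀ i, L i) (τ : ∀ i, InfinitePlace (L i) → UpperHalfPlane),
    (∀ i, 4 * a i ^ 3 + 27 * b i ^ 2 ≠ 0) →
    (∀ i, IntermediateField.adjoin K {jInv (a i) (b i)} = ⊤) →
    (∀ i, IsPeriod (jInv (a i) (b i)) (τ i)) →
    (∀ i, NearlyIntegral δ M (jInv (a i) (b i))) → (∀ i, A < absH (jInv (a i) (b i))) →
    (∀ i, ∀ Q : SPt (a i) (b i), Filter.Tendsto (fun k : ℕ => sht ((2 ^ k : ℕ) • Q) / 4 ^ k)
      Filter.atTop (nhds (chat Q))) ∧
    ∀ (r : Fin s → ℕ), (∀ i, 1 ≤ r i) → ∀ (X : ∀ i, Matrix (Fin (r i)) (Fin (r i)) ℤ),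
    (∀ i, ((X i).map (Int.cast : ℤ → ℝ)).PosDef) →
    ∀ P : ∀ i, Fin (r i) → SPt (a i) (b i),
      (∃ i, 0 < addOrderOf (P i) ∧ addOrderOf (P i) ≤ N) ∨
      ((∀ i, ¬ IsOfFinAddOrder (P i)) ∧
        c / (∑ i, r i * Module.finrank K (L i) : ℕ) *
            max (∑ i, faltings K (a i) (b i) (τ i) (r i)) 1 ≤
          (∑ i, chatM (X i) (P i)) / Module.finrank ℚ K) := by
  obtain ⟨N, c, δ, hc, hδ, h⟩ := one D
  refine ⟨N, c, δ, hc, hδ, fun M hM => ?_⟩
  obtain ⟨A, h⟩ := h M hM
  refine ⟨A, ?_⟩
  intro K _ _ s hs L _ _ _ hLD a b τ hD hK hτ hj hAj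
  refine ⟨fun i => (chat_spec (hD i)).1, ?_⟩
  intro r hr X hX P
  by_cases h0 : ∃ i, 0 < addOrderOf (P i) ∧ addOrderOf (P i) ≤ N
  · exact Or.inl h0
  right
  push Not at h0
  have h1 : ∀ i, ¬ IsOfFinAddOrder (P i) ∧
      c / ((r i * Module.finrank K (L i) : ℕ) : ℝ) *
        max (faltings K (a i) (b i) (τ i) (r i)) 1 ≤
        chatM (X i) (P i) / Module.finrank ℚ K := fun i =>
    (h (L i) (hLD i) K (a i) (b i) (τ i) (hD i) (hK i) (hτ i) (hj i) (hAj i) (r i) (X i) (hX i)
      (P i)).resolve_left fun h2 => absurd h2.2 (not_le.2 (h0 i h2.1))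
  have hfd : ∀ i, FiniteDimensional K (L i) := fun i =>
    Module.Finite.of_restrictScalars_finite ℚ K (L i)
  refine ⟨fun i => (h1 i).1, ?_⟩
  rw [Finset.sum_div]
  exact Pool.Agent.R407.sum_comb hs hc.le (fun i => r i * Module.finrank K (L i))
    (fun i => Nat.mul_pos (hr i) Module.finrank_pos) _ _ (fun i => (h1 i).2)

end Pool.Agent.Results.MP_f5471b_nt.ResNearlyIntegralJ
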